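import Pool.Agent.W313.HB.RatioFinal
import Pool.Agent.W313.HB.Nat2
import Pool.Agent.W409.HB.AllP
import Pool.Agent.W561.HB.SMPT
import Pool.Agent.W923.HB.SMSQ

/-!
# The Hasse principle for 100% of the twists of smooth diagonal hypersurfaces of bidegree `(d, 2)`

Let `A, B, C ∈ ℤ[x_0, ..., x_n]` be forms of degree `d ≥ 1` such that the hypersurface
`A(x) u² + B(x) v² = C(x) w²` in `ℙⁿ × ℙ²` is smooth. For `100%` of the pairs `(a, b)` of nonzero
integers for which the hypersurface `X_{a,b} : a A(x) u² + b B(x) v² = C(x) w²` has points everywhere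
locally (this is a positive proportion of all pairs), it has a rational point.
-/

set_option autoImplicit false

namespace Pool.Agent.Results.MP_e426f4_ag.SmoothHypersurfaces

open Pool.Agent.W313.HB

/-- The hypersurface `A u² + B v² = C w²` in `ℙⁿ × ℙ²` is smooth: there is no point
`(x, (u, v, w))` over a field of characteristic zero at which all the partial derivatives vanish. -/
def Smooth {n : ℕ} (A B C : MvPolynomial (Fin (n + 1)) ℤ) : Prop :=
  ∀ (K : Type) [Field K] [CharZero K] (x : Fin (n + 1) → K) (u v w : K), x ≠ 0 →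
    (u ≠ 0 ∨ v ≠ 0 ∨ w ≠ 0) →
    MvPolynomial.aeval x A * u = 0 → MvPolynomial.aeval x B * v = 0 →
    MvPolynomial.aeval x C * w = 0 →
    ¬ ∀ i, MvPolynomial.aeval x (MvPolynomial.pderiv i A) * u ^ 2 +
      MvPolynomial.aeval x (MvPolynomial.pderiv i B) * v ^ 2 =
      MvPolynomial.aeval x (MvPolynomial.pderiv i C) * w ^ 2

/-- The hypersurface `a A(x) u² + b B(x) v² = C(x) w²` in `ℙⁿ × ℙ²` has a point over the field
`K`. -/
def HasPoint {n : ℕ} (A B C : MvPolynomial (Fin (n + 1)) ℤ) (a b : ℤ) (K : Type) [Field K] : Prop :=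
  ∃ (x : Fin (n + 1) → K) (u v w : K), x ≠ 0 ∧ (u ≠ 0 ∨ v ≠ 0 ∨ w ≠ 0) ∧
    (a : K) * MvPolynomial.aeval x A * u ^ 2 + (b : K) * MvPolynomial.aeval x B * v ^ 2 =
      MvPolynomial.aeval x C * w ^ 2

/-- The pairs of nonzero integers of absolute value at most `H` for which the hypersurface has a
point over `ℝ` and over every `ℚ_p`. -/
def locallySoluble {n : ℕ} (A B C : MvPolynomial (Fin (n + 1)) ℤ) (H : ℕ) : Set (ℤ × ℤ) :=
  {x | |x.1| ≤ H ∧ |x.2| ≤ H ∧ x.1 ≠ 0 ∧ x.2 ≠ 0 ∧ HasPoint A B C x.1 x.2 ℝ ∧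
    ∀ p : Nat.Primes, HasPoint A B C x.1 x.2 ℚ_[(p : ℕ)]}

/-- The pairs of nonzero integers of absolute value at most `H` for which the hypersurface has a
rational point. -/
def globallySoluble {n : ℕ} (A B C : MvPolynomial (Fin (n + 1)) ℤ) (H : ℕ) : Set (ℤ × ℤ) :=
  {x | |x.1| ≤ H ∧ |x.2| ≤ H ∧ x.1 ≠ 0 ∧ x.2 ≠ 0 ∧ HasPoint A B C x.1 x.2 ℚ}

lemma fin_of {H : ℕ} {S : Set (ℤ × ℤ)} (h : ∀ x ∈ S, |x.1| ≤ (H : ℤ) ∧ |x.2| ≤ (H : ℤ)) :
    S.Finite := by
  apply ((Set.finite_Icc (-(H : ℤ)) H).prod (Set.finite_Icc (-(H : ℤ)) H)).subset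
  intro x hx
  have := h x hx
  rw [abs_le, abs_le] at this
  exact ⟨Set.mem_Icc.2 this.1, Set.mem_Icc.2 this.2⟩

lemma aeval_zero_of {n d : ℕ} {G : MvPolynomial (Fin (n + 1)) ℤ} (h : G.IsHomogeneous d)
    (hd : d ≠ 0) {K : Type} [Field K] : MvPolynomial.aeval (0 : Fin (n + 1) → K) G = 0 := by
  rw [MvPolynomial.aeval_def]
  rw [MvPolynomial.eval₂_eq]
  apply Finset.sum_eq_zero
  intro m hm
  have hm' := h (MvPolynomial.mem_support_iff.1 hm)
  have : ∃ i ∈ m.support, m i ≠ 0 := by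
    by_contra hcon
    push Not at hcon
    have h0 : m = 0 := by
      ext i
      by_cases hi : i ∈ m.support
      · exact hcon i hi
      · simpa using hi
    rw [h0] at hm'
    simp at hm'
    exact hd hm'.symm
  obtain ⟨i, hi, hi'⟩ := this
  rw [Finset.prod_eq_zero hi]
  · simp
  · simp [hi']

lemma toPtC {n : ℕ} {A B C : MvPolynomial (Fin (n + 1)) ℤ} (hA : A ≠ 0) (hB : B ≠ 0) (hC : C ≠ 0)
    (hs : Smooth A B C) {a b : ℤ} (ha : a ≠ 0) (hb : b ≠ 0) (K : Type) [NontriviallyNormedField K]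
    [CompleteSpace K] [CharZero K] (h : HasPoint A B C a b K) :
    PtC A B C a b (Set.univ : Set (Fin (n + 1) → K)) :=
  Pool.Agent.W561.HB.smpt_ n A B C hA hB hC (fun K _ _ x u v w => hs K x u v w) a b ha hb K h

lemma ofPtC {n d : ℕ} {A B C : MvPolynomial (Fin (n + 1)) ℤ} (hd : 1 ≤ d)
    (hA : A.IsHomogeneous d) {a b : ℤ} {K : Type} [Field K] {Ω : Set (Fin (n + 1) → K)}
    (h : PtC A B C a b Ω) : HasPoint A B C a b K := by
  obtain ⟨x, -, h1, u, v, w, h2, h3⟩ := h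
  refine ⟨x, u, v, w, ?_, h2, h3⟩
  rintro rfl
  apply h1
  rw [map_mul, map_mul, aeval_zero_of hA (by omega)]
  ring

lemma cast_point {n : ℕ} {A B C : MvPolynomial (Fin (n + 1)) ℤ} {a b : ℤ} (K : Type) [Field K]
    [CharZero K] (h : HasPoint A B C a b ℚ) : HasPoint A B C a b K := by
  obtain ⟨x, u, v, w, h1, h2, h3⟩ := h
  refine ⟨fun i => (x i : K), u, v, w, ?_, ?_, ?_⟩
  · intro h
    apply h1
    funext i
    have := congrFun h i
    simpa using this
  · rcases h2 with h2 | h2 | h2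
    · exact Or.inl (by exact_mod_cast h2)
    · exact Or.inr (Or.inl (by exact_mod_cast h2))
    · exact Or.inr (Or.inr (by exact_mod_cast h2))
  · have h4 := congrArg (fun t : ℚ => (t : K)) h3
    rw [Pool.Agent.W975.HB.aeval_cast, Pool.Agent.W975.HB.aeval_cast,
      Pool.Agent.W975.HB.aeval_cast]
    push_cast at h4 ⊢
    exact h4

theorem result (n d : ℕ) (hn : 1 ≤ n) (hd : 1 ≤ d) (A B C : MvPolynomial (Fin (n + 1)) ℤ)
    (hA : A.IsHomogeneous d) (hB : B.IsHomogeneous d) (hC : C.IsHomogeneous d)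
    (hs : Smooth A B C) :
    (∃ c : ℝ, 0 < c ∧ ∀ᶠ H : ℕ in Filter.atTop,
      c * (H : ℝ) ^ 2 ≤ ((locallySoluble A B C H).ncard : ℝ)) ∧
    Filter.Tendsto (fun H : ℕ => ((globallySoluble A B C H).ncard : ℝ) /
      ((locallySoluble A B C H).ncard : ℝ)) Filter.atTop (nhds 1) := by
  classical
  have hsq : Squarefree (MvPolynomial.map (Int.castRingHom ℚ) (A * B * C)) :=
    Pool.Agent.W923.HB.SMSQ.smsq_ n d A B C hn hd hA hB hC (fun K _ _ x u v w => hs K x u v w)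
  have hne : A * B * C ≠ 0 := by
    intro h
    rw [h, map_zero] at hsq
    exact hsq.ne_zero rfl
  have hC0 : C ≠ 0 := right_ne_zero_of_mul hne
  have hA0 : A ≠ 0 := left_ne_zero_of_mul (left_ne_zero_of_mul hne)
  have hB0 : B ≠ 0 := right_ne_zero_of_mul (left_ne_zero_of_mul hne)
  have f1 : ∀ H : ℕ, (locallySoluble A B C H).Finite := fun H =>
    fin_of fun x hx => ⟨hx.1, hx.2.1⟩
  have f2 : ∀ H : ℕ, (globallySoluble A B C H).Finite := fun H =>
    fin_of fun x hx => ⟨hx.1, hx.2.1⟩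
  have f3 : ∀ H : ℕ, {x : ℤ × ℤ | |x.1| ≤ H ∧ |x.2| ≤ H ∧ x.1 ≠ 0 ∧ x.2 ≠ 0 ∧
      PtC A B C x.1 x.2 (ratSet (Set.univ : Set (Fin (n + 1) → ℝ)) (fun p => Set.univ))}.Finite :=
    fun H => fin_of fun x hx => ⟨hx.1, hx.2.1⟩
  have h := Pool.Agent.W409.HB.allp_ t2f' ratio2' n d d d A B C hA hB hC ⟨d, rfl⟩ ⟨d, rfl⟩ hd hsq
    Set.univ (fun p => Set.univ) isOpen_univ (fun p => isOpen_univ) (by simp) Set.univ_nonempty
    (fun p => Set.univ_nonempty) (fun H => (f1 H).toFinset) (fun H => (f3 H).toFinset)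
    (by
      intro H x
      rw [Set.Finite.mem_toFinset, Finset.mem_product, Finset.mem_Icc, Finset.mem_Icc, ← abs_le,
        ← abs_le]
      constructor
      · rintro ⟨h1, h2, h3, h4, h5, h6⟩
        exact ⟨⟨h1, h2⟩, h3, h4, toPtC hA0 hB0 hC0 hs h3 h4 ℝ h5,
          fun p => toPtC hA0 hB0 hC0 hs h3 h4 _ (h6 p)⟩
      · rintro ⟨⟨h1, h2⟩, h3, h4, h5, h6⟩
        exact ⟨h1, h2, h3, h4, ofPtC hd hA h5, fun p => ofPtC hd hA (h6 p)⟩)
    (by
      intro H x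
      rw [Set.Finite.mem_toFinset, Finset.mem_product, Finset.mem_Icc, Finset.mem_Icc, ← abs_le,
        ← abs_le]
      exact ⟨fun h => ⟨⟨h.1, h.2.1⟩, h.2.2⟩, fun h => ⟨h.1.1, h.1.2, h.2⟩⟩)
  obtain ⟨⟨c, hc, H0, h1⟩, h2⟩ := h
  refine ⟨⟨c, hc, ?_⟩, ?_⟩
  · filter_upwards [Filter.eventually_ge_atTop H0] with H hH
    rw [Set.ncard_eq_toFinset_card _ (f1 H)]
    exact h1 H hH
  · have e2 : ∀ H : ℕ, (f3 H).toFinset ⊆ (f2 H).toFinset := by
      intro H x hx
      rw [Set.Finite.mem_toFinset] at hx ⊢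
      exact ⟨hx.1, hx.2.1, hx.2.2.1, hx.2.2.2.1, ofPtC hd hA hx.2.2.2.2⟩
    have e3 : ∀ H : ℕ, (f2 H).toFinset ⊆ (f1 H).toFinset := by
      intro H x hx
      rw [Set.Finite.mem_toFinset] at hx ⊢
      exact ⟨hx.1, hx.2.1, hx.2.2.1, hx.2.2.2.1, cast_point ℝ hx.2.2.2.2,
        fun p => cast_point _ hx.2.2.2.2⟩
    apply tendsto_of_tendsto_of_tendsto_of_le_of_le h2 tendsto_const_nhds
    · intro H
      dsimp only
      rw [Set.ncard_eq_toFinset_card _ (f1 H), Set.ncard_eq_toFinset_card _ (f2 H)]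
      apply div_le_div_of_nonneg_right _ (Nat.cast_nonneg _)
      exact_mod_cast Finset.card_le_card (e2 H)
    · intro H
      dsimp only
      rw [Set.ncard_eq_toFinset_card _ (f1 H), Set.ncard_eq_toFinset_card _ (f2 H)]
      apply div_le_one_of_le₀ _ (Nat.cast_nonneg _)
      exact_mod_cast Finset.card_le_card (e3 H)

end Pool.Agent.Results.MP_e426f4_ag.SmoothHypersurfaces
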